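import Pool.Agent.H94.MU2

set_option autoImplicit false

namespace Pool.Agent.Results.MP_44d257_an.Unique
open Pool.Agent.H94.MU

theorem result (n : ℕ) (H : EuclideanSpace ℝ (Fin n) → EuclideanSpace ℝ (Fin n) → ℝ)
    (hH : ContDiff ℝ 2 (Function.uncurry H)) (hp : ∀ p, Per fun x => H x p)
    (A1 : ∀ M : ℝ, ∃ R : ℝ, ∀ p, R ≤ ‖p‖ → ∀ x,
      M ≤ 1 / 2 * H x p ^ 2 + fderiv ℝ (fun x => H x p) x p)
    (θ : ℝ) (_hθ : 0 < θ) (A2 : ∀ x p, (θ + 1) * H x p ≤ fderiv ℝ (H x) p p)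
    (v w : EuclideanSpace ℝ (Fin n) → ℝ) (hv : Visc H v) (hw : Visc H w)
    (h : ∀ x ∈ M0 H, v x = w x) : v = w := by
  obtain ⟨R, hR⟩ := A1 1
  have h1 := fun x p (hR' : R ≤ ‖p‖) => nz hH hp (fun x => one_pos.trans_le (hR p hR' x)) x
  have h2 : ∀ x p, H x p = 0 → 0 ≤ fderiv ℝ (H x) p p := fun x p h => by simpa [h] using A2 x p
  exact funext fun y => le_antisymm (le hH h1 h2 hv hw h y)
    (le hH h1 h2 hw hv (fun x hx => (h x hx).symm) y)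

end Pool.Agent.Results.MP_44d257_an.Unique
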